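import Pool.Agent.V1146.Dan.TypeA

/-!
# A variety of type A with an `SAut`-stable point

Let `K` be an algebraically closed field of characteristic zero. The affine surface
`Y = {c * c' = 1, (c - 1) ^ 2 * z = y ^ 2 + (c - 1)}` is of type A, that is,
`HD*(Y × 𝔸¹) = K[Y × 𝔸¹]`, but the ideal `I(Y)` generated by the images of all locally nilpotent
derivations of `K[Y]` is proper, and `Y` has a point fixed by the whole group `SAut(Y)`. So the
three conditions `type A`, `I(Y) = K[Y]`, `no SAut(Y)-stable point` are not equivalent.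
-/

open Polynomial

set_option autoImplicit false

namespace Pool.Agent.Results.MP_37b72a_ag.TypeAFixedPoint

open Pool.Agent.H868R3 Pool.Agent.V1146

universe u

/-- `Y = Spec A` is of type A: the modified Derksen invariant of `Y × 𝔸¹` is everything. -/
def IsTypeA (K A : Type u) [Field K] [CommRing A] [Algebra K A] : Prop :=
  HDStar K A[X] = ⊤

/-- The ideal `I(Y)` generated by all values `∂ f` of all locally nilpotent derivations `∂`. -/
def I (K A : Type u) [Field K] [CommRing A] [Algebra K A] : Ideal A :=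
  Ideal.span {b : A | ∃ D : Derivation K A A, IsLND D ∧ ∃ a : A, b = D a}

/-- The group `SAut(Y)`, as a group of automorphisms of the coordinate ring: it is generated by
the exponentials `exp(∂) = ∑ ∂ ^ n / n!` of all locally nilpotent derivations `∂`. -/
def SAut (K A : Type u) [Field K] [CommRing A] [Algebra K A] : Subgroup (A ≃ₐ[K] A) :=
  Subgroup.closure {φ : A ≃ₐ[K] A | ∃ D : Derivation K A A, IsLND D ∧
    ∀ a : A, φ a = ∑ᶠ n : ℕ, ((n.factorial : K)⁻¹) • (⇑D)^[n] a}

/-- The point `χ` of `Y` is fixed by every element of `SAut(Y)`. -/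
def IsStable {K A : Type u} [Field K] [CommRing A] [Algebra K A] (χ : A →ₐ[K] K) : Prop :=
  ∀ φ ∈ SAut K A, ∀ a : A, χ (φ a) = χ a

lemma stable_of_vanish {K A : Type u} [Field K] [CommRing A] [Algebra K A] (χ : A →ₐ[K] K)
    (h : ∀ D : Derivation K A A, IsLND D → ∀ a : A, χ (D a) = 0) : IsStable χ := by
  intro φ hφ
  induction hφ using Subgroup.closure_induction with
  | mem φ hφ =>
    obtain ⟨D, hD, hφ⟩ := hφ
    intro a
    obtain ⟨N, hN⟩ := hD a
    have hsupp : Function.support (fun n : ℕ => ((n.factorial : K)⁻¹) • (⇑D)^[n] a) ⊆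
        ((Finset.range (N + 1) : Finset ℕ) : Set ℕ) := by
      intro n hn
      rw [Function.mem_support] at hn
      rw [Finset.coe_range, Set.mem_Iio]
      by_contra hcon
      apply hn
      have : (⇑D)^[n] a = 0 := by
        obtain ⟨j, rfl⟩ := Nat.exists_eq_add_of_le (show N ≤ n by omega)
        rw [add_comm, Function.iterate_add_apply, hN]
        exact iterate_map_zero _ _
      rw [this, smul_zero]
    rw [hφ, finsum_eq_sum_of_support_subset _ hsupp, map_sum, Finset.sum_range_succ']
    have h0 : ∀ k ∈ Finset.range N,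
        χ ((((k + 1).factorial : K)⁻¹) • (⇑D)^[k + 1] a) = 0 := by
      intro k _
      rw [map_smul, Function.iterate_succ_apply', h D hD, smul_zero]
    rw [Finset.sum_eq_zero h0, zero_add]
    simp
  | one => intro a; rfl
  | mul φ ψ _ _ hφ hψ => intro a; rw [AlgEquiv.mul_apply, hφ, hψ]
  | inv φ _ hφ =>
    intro a
    have h1 := hφ (φ⁻¹ a)
    have h2 : φ (φ⁻¹ a) = a := by
      rw [← AlgEquiv.mul_apply, mul_inv_cancel]; rfl
    rw [h2] at h1
    exact h1.symm

/-- There is a variety `Y` of type A with `I(Y) ≠ K[Y]` and with an `SAut(Y)`-stable point. -/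
theorem result (K : Type u) [Field K] [IsAlgClosed K] [CharZero K] :
    ∃ (A : Type u) (_ : CommRing A) (_ : Algebra K A), IsDomain A ∧ Algebra.FiniteType K A ∧
      IsTypeA K A ∧ I K A ≠ ⊤ ∧ ∃ χ : A →ₐ[K] K, IsStable χ := by
  refine ⟨AT K, inferInstance, inferInstance, ?_, ?_, typeA K, ?_,
    (pt (1 : Kˣ) 0 0 (by simp)).comp (AT K).val, ?_⟩
  · have h1 := jA_injective (K := K) xL_ne (AT K)
    exact Function.Injective.isDomain
      (jA xL_ne (AT K) : AT K →+* (FractionRing (LaurentPolynomial K))[X]) h1
  · have h1 : Algebra.FiniteType K (SL K) := surf_ft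
    exact Algebra.FiniteType.equiv h1 (Subalgebra.topEquiv (R := K) (A := SL K)).symm
  · intro h
    have h1 := imageIdeal_vanish (AT K) (AT_hR K) 1 (AT_hh K)
      (by rw [map_one]; exact one_ne_zero) 1 (by
        change (1 : AT K) ∈ I K (AT K)
        rw [h]; trivial)
    have h2 : ((1 : AT K) : SL K) = 1 := rfl
    rw [h2, map_one] at h1
    exact one_ne_zero h1
  · apply stable_of_vanish
    intro D hD a
    exact image_vanish (AT K) (AT_hR K) 1 (AT_hh K) (by rw [map_one]; exact one_ne_zero) D hD a

end Pool.Agent.Results.MP_37b72a_ag.TypeAFixedPoint
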